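import Pool.Agent.Helper77.K3.DefsII

set_option autoImplicit false
set_option linter.unusedSectionVars false
set_option linter.dupNamespace false

open Set Filter Topology Matrix

namespace Pool.Agent.Helper71.K3.comm

open Pool.Agent.Helper77.K3

/-! ## Entries of products of triangular maps -/

section entries
variable (hc : S_coord) {γ δ : Aff3} (h : IsTri γ) (h' : IsTri δ)
include hc h

theorem t2 : tr (γ * δ) 2 = lin γ 2 2 * tr δ 2 + tr γ 2 := by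
  obtain ⟨h1, h2, h3, -⟩ := h
  rw [hc.2.2.1, h2, h3]; ring

theorem t1 : tr (γ * δ) 1 = lin γ 1 1 * tr δ 1 + lin γ 1 2 * tr δ 2 + tr γ 1 := by
  obtain ⟨h1, h2, h3, -⟩ := h
  rw [hc.2.2.1, h1]; ring

theorem t0 : tr (γ * δ) 0 = lin γ 0 0 * tr δ 0 + lin γ 0 1 * tr δ 1 + lin γ 0 2 * tr δ 2
    + tr γ 0 := by
  rw [hc.2.2.1]

include h'

theorem l01 : lin (γ * δ) 0 1 = lin γ 0 0 * lin δ 0 1 + lin γ 0 1 * lin δ 1 1 := by
  obtain ⟨k1, k2, k3, -⟩ := h'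
  rw [hc.2.1, k3]; ring

theorem l12 : lin (γ * δ) 1 2 = lin γ 1 1 * lin δ 1 2 + lin γ 1 2 * lin δ 2 2 := by
  obtain ⟨h1, h2, h3, -⟩ := h
  rw [hc.2.1, h1]; ring

theorem l02 : lin (γ * δ) 0 2 = lin γ 0 0 * lin δ 0 2 + lin γ 0 1 * lin δ 1 2
    + lin γ 0 2 * lin δ 2 2 := by
  rw [hc.2.1]

theorem ld (i : Fin 3) : lin (γ * δ) i i = lin γ i i * lin δ i i := by
  obtain ⟨h1, h2, h3, -⟩ := h
  obtain ⟨k1, k2, k3, -⟩ := h'
  rw [hc.2.1]
  fin_cases i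
  · simp [k1, k2]
  · simp [h1, k3]
  · simp [h2, h3]

end entries

theorem lin_one (i j : Fin 3) : lin (1 : Aff3) i j = if i = j then 1 else 0 := by
  unfold lin e
  show (Pi.single j (1:ℝ) : E) i = _
  rw [Pi.single_apply]

theorem mat_one_of {γ : Aff3} (h : IsTri γ) (h0 : ∀ i, lin γ i i = 1) (h1 : lin γ 0 1 = 0)
    (h2 : lin γ 0 2 = 0) (h3 : lin γ 1 2 = 0) : mat γ = 1 := by
  obtain ⟨k1, k2, k3, -⟩ := h
  ext i j
  show lin γ i j = (1 : M3) i j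
  fin_cases i <;> fin_cases j <;> simp [h0, h1, h2, h3, k1, k2, k3]

theorem inv_diag (hc : S_coord) {γ : Aff3} (h : IsTri γ) (h' : IsTri γ⁻¹) (i : Fin 3)
    (hi : lin γ i i = 1) : lin γ⁻¹ i i = 1 := by
  have := ld hc h h' i
  rw [mul_inv_cancel, lin_one, if_pos rfl, hi, one_mul] at this
  exact this.symm

/-- entries of commutators of unipotent elements -/
theorem comm_entries (hc : S_coord) {D : KData} (hT : D.Tri) {σ τ : Aff3} (hσ : σ ∈ D.Γ)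
    (hτ : τ ∈ D.Γ) (dσ : ∀ i, lin σ i i = 1) (dτ : ∀ i, lin τ i i = 1) :
    (∀ i, lin (σ * τ * σ⁻¹ * τ⁻¹) i i = 1) ∧ lin (σ * τ * σ⁻¹ * τ⁻¹) 0 1 = 0 ∧
    lin (σ * τ * σ⁻¹ * τ⁻¹) 1 2 = 0 ∧ tr (σ * τ * σ⁻¹ * τ⁻¹) 2 = 0 ∧
    lin (σ * τ * σ⁻¹ * τ⁻¹) 0 2 = lin σ 0 1 * lin τ 1 2 - lin τ 0 1 * lin σ 1 2 ∧
    tr (σ * τ * σ⁻¹ * τ⁻¹) 1 = lin σ 1 2 * tr τ 2 - lin τ 1 2 * tr σ 2 ∧
    tr (σ * τ * σ⁻¹ * τ⁻¹) 0 + lin (σ * τ * σ⁻¹ * τ⁻¹) 0 2 * tr (τ * σ) 2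
      = (lin σ 0 1 * tr τ 1 + lin σ 0 2 * tr τ 2) - (lin τ 0 1 * tr σ 1 + lin τ 0 2 * tr σ 2) := by
  have hσ' := D.Γ.inv_mem hσ
  have hτ' := D.Γ.inv_mem hτ
  have hκ : σ * τ * σ⁻¹ * τ⁻¹ ∈ D.Γ := D.Γ.mul_mem (D.Γ.mul_mem (D.Γ.mul_mem hσ hτ) hσ') hτ'
  have Tσ := hT _ hσ
  have Tτ := hT _ hτ
  have Tκ := hT _ hκ
  have TP := hT _ (D.Γ.mul_mem hτ hσ)
  have hk : σ * τ * σ⁻¹ * τ⁻¹ * (τ * σ) = σ * τ := by group
  have dP : ∀ i, lin (τ * σ) i i = 1 := fun i => by rw [ld hc Tτ Tσ, dσ, dτ, one_mul]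
  have dκ : ∀ i, lin (σ * τ * σ⁻¹ * τ⁻¹) i i = 1 := by
    intro i
    have := ld hc Tκ TP i
    rw [hk, ld hc Tσ Tτ, dσ, dτ, dP, mul_one, mul_one] at this
    exact this.symm
  have e1 := l01 hc Tκ TP
  have e2 := l12 hc Tκ TP
  have e3 := l02 hc Tκ TP
  have e4 := t2 hc (δ := τ * σ) Tκ
  have e5 := t1 hc (δ := τ * σ) Tκ
  have e6 := t0 hc (δ := τ * σ) Tκ
  rw [hk, dκ, dP, l01 hc Tσ Tτ, l01 hc Tτ Tσ, dσ, dτ] at e1
  rw [hk, dκ, dP, l12 hc Tσ Tτ, l12 hc Tτ Tσ, dσ, dτ] at e2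
  rw [dσ, dτ] at e1 e2
  have f1 : lin (σ * τ * σ⁻¹ * τ⁻¹) 0 1 = 0 := by linarith
  have f2 : lin (σ * τ * σ⁻¹ * τ⁻¹) 1 2 = 0 := by linarith
  rw [hk, dκ, t2 hc Tσ, t2 hc Tτ, dσ, dτ] at e4
  have f4 : tr (σ * τ * σ⁻¹ * τ⁻¹) 2 = 0 := by linarith
  rw [hk, dκ, dP, f1, l02 hc Tσ Tτ, l02 hc Tτ Tσ, dσ, dτ, dσ, dτ] at e3
  rw [hk, dκ, f2, t1 hc Tσ, t1 hc Tτ, dσ, dτ] at e5
  rw [hk, dκ, f1, t0 hc Tσ, t0 hc Tτ, dσ, dτ] at e6
  refine ⟨dκ, f1, f2, f4, ?_, ?_, ?_⟩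
  · linarith
  · linarith
  · linarith

theorem comm (hX : S_noX) (hN : S_densN) (hc : S_coord) : S_comm := by
  intro D a₀ hP ha hg σ hσ τ hτ hσ2 hτ2
  obtain ⟨hT, hprop⟩ := hP
  have hdens := hN D hT hg
  obtain ⟨g, hg, hg2⟩ := hg
  -- unipotent elements
  have hu : ∀ γ ∈ D.Γ, lin γ 2 2 = 1 → ∀ i, lin γ i i = 1 := by
    intro γ hγ h2 i
    have h0 : lin γ 0 0 = 1 := by rw [hprop γ hγ, h2, Real.one_rpow]
    have h3 := (hT γ hγ).2.2.2.2.2.2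
    rw [h0, h2] at h3
    fin_cases i
    · exact h0
    · show lin γ 1 1 = 1
      linarith
    · exact h2
  have dσ := hu σ hσ hσ2
  have dτ := hu τ hτ hτ2
  obtain ⟨dκ, κ01, κ12, κt2, -, -, -⟩ := comm_entries hc hT hσ hτ dσ dτ
  set κ := σ * τ * σ⁻¹ * τ⁻¹ with hκdef
  have hκ : κ ∈ D.Γ := D.Γ.mul_mem (D.Γ.mul_mem (D.Γ.mul_mem hσ hτ) (D.Γ.inv_mem hσ))
    (D.Γ.inv_mem hτ)
  clear_value κ
  have gpos : 0 < lin g 2 2 := (hT g hg).2.2.2.2.2.1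
  have g0 : lin g 0 0 ≠ 1 := by
    rw [hprop g hg]
    intro h
    have h1 := congrArg Real.log h
    rw [Real.log_rpow gpos, Real.log_one] at h1
    rcases mul_eq_zero.1 h1 with h2 | h2
    · exact ha h2
    · rcases Real.log_eq_zero.1 h2 with h3 | h3 | h3
      · linarith
      · exact hg2 h3
      · linarith
  -- the relation
  have hrel : ∀ ρ ∈ D.Γ, lin ρ 2 2 = 1 → lin ρ 0 1 * tr κ 1 = lin κ 0 2 * tr ρ 2 := by
    intro ρ hρ hρ2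
    have dρ := hu ρ hρ hρ2
    obtain ⟨dω, ω01, ω12, ωt2, ω02, ωt1, ωt0⟩ := comm_entries hc hT hρ hκ dρ dκ
    set ω := ρ * κ * ρ⁻¹ * κ⁻¹ with hω
    have hωm : ω ∈ D.Γ := D.Γ.mul_mem (D.Γ.mul_mem (D.Γ.mul_mem hρ hκ) (D.Γ.inv_mem hρ))
      (D.Γ.inv_mem hκ)
    clear_value ω
    rw [κ12, κ01] at ω02
    rw [κt2, κ12] at ωt1
    have f1 : lin ω 0 2 = 0 := by rw [ω02]; ring
    have f2 : tr ω 1 = 0 := by rw [ωt1]; ring
    have h1 := hX D g ω hT hg g0 hωm (mat_one_of (hT _ hωm) dω ω01 f1 ω12) f2 ωt2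
    have h2 : tr ω 0 = 0 := by rw [h1]; rfl
    rw [h2, f1, κt2, κ01] at ωt0
    linarith
  -- conjugation by `g`
  have hconj : ∀ ρ ∈ D.Γ, lin ρ 2 2 = 1 → lin g 0 0 * lin ρ 0 1 * tr κ 1 =
      lin κ 0 2 * (lin g 2 2 * tr ρ 2) * lin g 1 1 := by
    intro ρ hρ hρ2
    have dρ := hu ρ hρ hρ2
    have hm : g * ρ * g⁻¹ ∈ D.Γ := D.Γ.mul_mem (D.Γ.mul_mem hg hρ) (D.Γ.inv_mem hg)
    have hk : g * ρ * g⁻¹ * g = g * ρ := by group
    have Tg := hT _ hg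
    have Tρ := hT _ hρ
    have Tm := hT _ hm
    have e0 := ld hc Tm Tg 2
    rw [hk, ld hc Tg Tρ, dρ, mul_one] at e0
    have d2 : lin (g * ρ * g⁻¹) 2 2 = 1 := by
      have h1 : lin g 2 2 ≠ 0 := gpos.ne'
      exact mul_right_cancel₀ h1 (by rw [one_mul]; exact e0.symm)
    have dm := hu _ hm d2
    have e1 := l01 hc Tm Tg
    have e2 := t2 hc (δ := g) Tm
    rw [hk, l01 hc Tg Tρ, dρ, dm] at e1
    rw [hk, t2 hc Tg, dm] at e2
    have e3 := hrel _ hm d2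
    have e4 : lin (g * ρ * g⁻¹) 0 1 * lin g 1 1 = lin g 0 0 * lin ρ 0 1 := by linarith
    have e5 : tr (g * ρ * g⁻¹) 2 = lin g 2 2 * tr ρ 2 := by linarith
    rw [e5] at e3
    calc lin g 0 0 * lin ρ 0 1 * tr κ 1 = (lin (g * ρ * g⁻¹) 0 1 * tr κ 1) * lin g 1 1 := by
          rw [← e4]; ring
      _ = _ := by rw [e3]
  -- choose an element with nonzero height
  obtain ⟨ρ, hρ, dρ, hρ1, hρ2⟩ := hdens 1 2 (by norm_num)
  have r1 := hrel ρ hρ (dρ 2)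
  have r2 := hconj ρ hρ (dρ 2)
  have hprod := (hT g hg).2.2.2.2.2.2
  have g00 : 0 < lin g 0 0 := (hT g hg).2.2.2.1
  have g11 : 0 < lin g 1 1 := (hT g hg).2.2.2.2.1
  have hne : lin g 0 0 - lin g 2 2 * lin g 1 1 ≠ 0 := by
    intro h
    apply g0
    have h1 : lin g 0 0 = lin g 2 2 * lin g 1 1 := by linarith
    have h2 : lin g 0 0 * lin g 0 0 = 1 := by
      nth_rewrite 2 [h1]
      linarith
    nlinarith
  have h3 : (lin g 0 0 - lin g 2 2 * lin g 1 1) * (lin κ 0 2 * tr ρ 2) = 0 := by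
    linear_combination r2 - lin g 0 0 * r1
  have h4 : lin κ 0 2 = 0 := by
    rcases mul_eq_zero.1 h3 with h | h
    · exact absurd h hne
    · rcases mul_eq_zero.1 h with h | h
      · exact h
      · linarith
  exact ⟨mat_one_of (hT _ hκ) dκ κ01 h4 κ12, κt2⟩

/-! ## Shears -/

/-- `γ` is the shear `(x + a y + b, y, z + c)` -/
def Sh (γ : Aff3) (a b c : ℝ) : Prop := ∀ x : E, γ x = x + ((a * x 1 + b) • e 0 + c • e 2)

theorem e_vals (a c : ℝ) : (a • e 0 + c • e 2 : E) 0 = a ∧ (a • e 0 + c • e 2 : E) 1 = 0 ∧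
    (a • e 0 + c • e 2 : E) 2 = c := by
  refine ⟨?_, ?_, ?_⟩ <;> simp [e]

theorem Sh.one : Sh 1 0 0 0 := by
  intro x
  show x = _
  simp

theorem Sh.mul {γ δ : Aff3} {a b c a' b' c' : ℝ} (h : Sh γ a b c) (h' : Sh δ a' b' c') :
    Sh (γ * δ) (a + a') (b + b') (c + c') := by
  intro x
  show γ (δ x) = _
  rw [h', h]
  have h1 := e_vals (a' * x 1 + b') c'
  rw [Pi.add_apply, h1.2.1, add_zero]
  funext i
  simp only [Pi.add_apply, Pi.smul_apply, smul_eq_mul]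
  ring

theorem Sh.inv {γ : Aff3} {a b c : ℝ} (h : Sh γ a b c) : Sh γ⁻¹ (-a) (-b) (-c) := by
  intro x
  have h1 : γ (x + ((-a * x 1 + -b) • e 0 + -c • e 2)) = x := by
    rw [h]
    have h2 := e_vals (-a * x 1 + -b) (-c)
    rw [Pi.add_apply, h2.2.1, add_zero]
    funext i
    simp only [Pi.add_apply, Pi.smul_apply, smul_eq_mul]
    ring
  have h2 : γ⁻¹ (γ (x + ((-a * x 1 + -b) • e 0 + -c • e 2)))
      = x + ((-a * x 1 + -b) • e 0 + -c • e 2) := by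
    show (γ⁻¹ * γ) _ = _
    rw [inv_mul_cancel]
    rfl
  rw [h1] at h2
  exact h2

theorem Sh.pow {γ : Aff3} {a b c : ℝ} (h : Sh γ a b c) (n : ℕ) :
    Sh (γ ^ n) (n * a) (n * b) (n * c) := by
  induction n with
  | zero =>
    rw [pow_zero, Nat.cast_zero, zero_mul, zero_mul, zero_mul]
    exact Sh.one
  | succ n ih =>
    have := ih.mul h
    rw [← pow_succ] at this
    have e1 : ((n + 1 : ℕ) : ℝ) * a = n * a + a := by push_cast; ring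
    have e2 : ((n + 1 : ℕ) : ℝ) * b = n * b + b := by push_cast; ring
    have e3 : ((n + 1 : ℕ) : ℝ) * c = n * c + c := by push_cast; ring
    rw [e1, e2, e3]
    exact this

theorem Sh.zpow {γ : Aff3} {a b c : ℝ} (h : Sh γ a b c) (n : ℤ) :
    Sh (γ ^ n) (n * a) (n * b) (n * c) := by
  obtain ⟨m, rfl | rfl⟩ := n.eq_nat_or_neg
  · rw [zpow_natCast]
    push_cast
    exact h.pow m
  · rw [_root_.zpow_neg, zpow_natCast]
    push_cast
    rw [neg_mul, neg_mul, neg_mul]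
    exact (h.pow m).inv

theorem Sh.unique {γ : Aff3} {a b c a' b' c' : ℝ} (h : Sh γ a b c) (h' : Sh γ a' b' c') :
    a = a' ∧ c = c' := by
  have h1 := fun x : E => (h x).symm.trans (h' x)
  have h2 : ∀ x : E, (a * x 1 + b) • e 0 + c • e 2 = (a' * x 1 + b') • e 0 + c' • e 2 :=
    fun x => add_left_cancel (h1 x)
  have k0 := h2 0
  have k1 := h2 (e 1)
  have v0 := e_vals (a * (0 : E) 1 + b) c
  have v0' := e_vals (a' * (0 : E) 1 + b') c'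
  have v1 := e_vals (a * (e 1) 1 + b) c
  have v1' := e_vals (a' * (e 1) 1 + b') c'
  have h11 : (e 1 : E) 1 = 1 := by simp [e]
  rw [h11] at v1 v1' k1
  have w0 := congrFun k0 0
  have w1 := congrFun k1 0
  have w2 := congrFun k0 2
  rw [v0.1, v0'.1] at w0
  rw [v1.1, v1'.1] at w1
  rw [v0.2.2, v0'.2.2] at w2
  simp only [Pi.zero_apply, mul_zero, zero_add, mul_one] at w0 w1
  exact ⟨by linarith, w2⟩

/-- infinitely many small combinations -/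
theorem inf_small (r : ℝ) {ε : ℝ} (hε : 0 < ε) :
    {p : ℤ × ℤ | |(p.1:ℝ) + p.2 * r| ≤ ε}.Infinite := by
  intro hfin
  obtain ⟨B, hB⟩ := (hfin.image Prod.snd).bddAbove
  set L : ℕ := B.toNat + 1 with hL
  have hLB : B < (L:ℤ) := by omega
  obtain ⟨N, hN⟩ := exists_nat_ge ((L:ℝ) / ε)
  obtain ⟨j, k, hk, -, hjk⟩ := Real.exists_int_int_abs_mul_sub_le r (Nat.succ_pos N)
  have hmem : ((-(j * L), k * L) : ℤ × ℤ) ∈ {p : ℤ × ℤ | |(p.1:ℝ) + p.2 * r| ≤ ε} := by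
    show |(((-(j * L) : ℤ)) : ℝ) + ((k * L : ℤ) : ℝ) * r| ≤ ε
    have e1 : (((-(j * L) : ℤ)) : ℝ) + ((k * L : ℤ) : ℝ) * r = L * (k * r - j) := by
      push_cast; ring
    rw [e1, abs_mul, Nat.abs_cast]
    have h1 : (0:ℝ) < L := by rw [hL]; positivity
    calc (L:ℝ) * |k * r - j| ≤ L * (1 / (((N + 1 : ℕ) : ℝ) + 1)) := by gcongr
      _ ≤ ε := by
          rw [mul_one_div, div_le_iff₀ (by positivity)]
          rw [div_le_iff₀ hε] at hN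
          push_cast
          nlinarith
  have h2 : k * L ≤ B := hB ⟨_, hmem, rfl⟩
  have h3 : (L:ℤ) ≤ k * L := by
    have : (1:ℤ) ≤ k := hk
    nlinarith
  omega

theorem ys (hF2 : S_F2) (hc : S_coord) : S_ys := by
  intro D τ τ' hT hτ hτ' dτ dτ' a1 a2 a3 b1 b2 b3 c1 c2 hne
  -- shears
  have hsh : ∀ σ ∈ D.Γ, (∀ i, lin σ i i = 1) → lin σ 0 2 = 0 → lin σ 1 2 = 0 → tr σ 1 = 0 →
      Sh σ (lin σ 0 1) (tr σ 0) (tr σ 2) := by
    intro σ hσ dσ s1 s2 s3 x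
    obtain ⟨h1, h2, h3, -⟩ := hT σ hσ
    have hv := e_vals (lin σ 0 1 * x 1 + tr σ 0) (tr σ 2)
    have f0 := hc.1 σ x 0
    have f1 := hc.1 σ x 1
    have f2 := hc.1 σ x 2
    rw [dσ, s1] at f0
    rw [dσ, s2, s3, h1] at f1
    rw [dσ, h2, h3] at f2
    funext i
    fin_cases i
    · show σ x 0 = x 0 + ((lin σ 0 1 * x 1 + tr σ 0) • e 0 + tr σ 2 • e 2 : E) 0
      rw [hv.1, f0]; ring
    · show σ x 1 = x 1 + ((lin σ 0 1 * x 1 + tr σ 0) • e 0 + tr σ 2 • e 2 : E) 1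
      rw [hv.2.1, f1]; ring
    · show σ x 2 = x 2 + ((lin σ 0 1 * x 1 + tr σ 0) • e 0 + tr σ 2 • e 2 : E) 2
      rw [hv.2.2, f2]; ring
  have S1 := hsh τ hτ dτ a1 a2 a3
  have S2 := hsh τ' hτ' dτ' b1 b2 b3
  generalize lin τ 0 1 = α at *
  generalize lin τ' 0 1 = α' at *
  generalize tr τ 0 = b at *
  generalize tr τ' 0 = b' at *
  generalize tr τ 2 = c at *
  generalize tr τ' 2 = c' at *
  have hdet : α * c' - α' * c ≠ 0 := sub_ne_zero.2 hne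
  set y0 : ℝ := (b' * c - b * c') / (α * c' - α' * c) with hy0
  have hy : (α * c' - α' * c) * y0 = b' * c - b * c' := by rw [hy0]; field_simp
  obtain ⟨p, hp, hpy⟩ := hF2 D (e 1) y0 (by
    intro h
    have := congrFun h 1
    simp [e] at this)
  have hp1 : p 1 = y0 := by simpa [e] using hpy
  -- a ball
  obtain ⟨ρ, hρ, hball⟩ := Metric.isOpen_iff.1 D.isOpen p hp
  have hfin := D.proper (Metric.closedBall p (ρ / 2)) (fun x hx => hball (by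
    rw [Metric.mem_closedBall] at hx
    rw [Metric.mem_ball]; linarith)) (isCompact_closedBall p (ρ / 2))
  set w : E := (α * y0 + b) • e 0 + c • e 2 with hw
  -- the action on `p`
  have hact : ∀ m n : ℤ, (τ ^ m * τ' ^ n) p = p + ((m:ℝ) + n * (c' / c)) • w := by
    intro m n
    rw [((S1.zpow m).mul (S2.zpow n)) p, hp1, hw]
    have h1 : α' * y0 + b' = (c' / c) * (α * y0 + b) := by
      field_simp
      linear_combination -hy
    funext i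
    simp only [Pi.add_apply, Pi.smul_apply, smul_eq_mul]
    have h2 : (c' / c) * c = c' := by field_simp
    have h3 : (m * α + n * α') * y0 + (m * b + n * b')
        = ((m:ℝ) + n * (c' / c)) * (α * y0 + b) := by
      linear_combination (n:ℝ) * h1
    rw [h3]
    linear_combination (-(n:ℝ) * e 2 i) * h2
  obtain ⟨ε, hε, hεw⟩ : ∃ ε > 0, ε * ‖w‖ ≤ ρ / 2 := by
    refine ⟨ρ / 2 / (‖w‖ + 1), by positivity, ?_⟩
    rw [div_mul_eq_mul_div, div_le_iff₀ (by positivity)]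
    nlinarith [norm_nonneg w]
  have hinf := inf_small (c' / c) hε
  have hinj : Set.InjOn (fun q : ℤ × ℤ => τ ^ q.1 * τ' ^ q.2)
      {q : ℤ × ℤ | |(q.1:ℝ) + q.2 * (c' / c)| ≤ ε} := by
    rintro ⟨m, n⟩ _ ⟨m', n'⟩ _ h
    have h0 : τ ^ m * τ' ^ n = τ ^ m' * τ' ^ n' := h
    have h1 := (S1.zpow m).mul (S2.zpow n)
    have h2 := (S1.zpow m').mul (S2.zpow n')
    rw [h0] at h1
    obtain ⟨h3, h4⟩ := h1.unique h2
    have h5 : (α * c' - α' * c) * ((m:ℝ) - m') = 0 := by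
      linear_combination c' * h3 - α' * h4
    have h6 : (α * c' - α' * c) * ((n:ℝ) - n') = 0 := by
      linear_combination α * h4 - c * h3
    have h7 : (m:ℝ) = m' := by
      rcases mul_eq_zero.1 h5 with h | h
      · exact absurd h hdet
      · linarith
    have h8 : (n:ℝ) = n' := by
      rcases mul_eq_zero.1 h6 with h | h
      · exact absurd h hdet
      · linarith
    rw [Prod.mk.injEq]
    exact ⟨by exact_mod_cast h7, by exact_mod_cast h8⟩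
  refine (hinf.image hinj) (hfin.subset ?_)
  rintro _ ⟨⟨m, n⟩, hmn, rfl⟩
  refine ⟨D.Γ.mul_mem (D.Γ.zpow_mem hτ m) (D.Γ.zpow_mem hτ' n), ?_⟩
  refine ⟨(τ ^ m * τ' ^ n) p, ⟨p, Metric.mem_closedBall_self (by positivity), rfl⟩, ?_⟩
  rw [hact, Metric.mem_closedBall, dist_eq_norm, add_sub_cancel_left, norm_smul]
  refine le_trans ?_ hεw
  exact mul_le_mul_of_nonneg_right hmn (norm_nonneg _)

end Pool.Agent.Helper71.K3.comm
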