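import Pool.Agent.Helper77.K3.DefsII

set_option autoImplicit false

open Set Filter Topology Matrix

namespace Pool.Agent.Helper71.K3.densN

open Pool.Agent.Helper77.K3

/-! ## Algebra of triangular affine maps -/

theorem tri_mul_diag (hc : S_coord) {γ δ : Aff3} (h : IsTri γ) (h' : IsTri δ) (i : Fin 3) :
    lin (γ * δ) i i = lin γ i i * lin δ i i := by
  obtain ⟨h1, h2, h3, -⟩ := h
  obtain ⟨k1, k2, k3, -⟩ := h'
  rw [hc.2.1]
  fin_cases i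
  · simp [k1, k2]
  · simp [h1, k3]
  · simp [h2, h3]

theorem tri_mul_tr (hc : S_coord) {γ : Aff3} (δ : Aff3) (h : IsTri γ) :
    tr (γ * δ) 2 = lin γ 2 2 * tr δ 2 + tr γ 2 := by
  obtain ⟨h1, h2, h3, -⟩ := h
  rw [hc.2.2.1, h2, h3]
  ring

theorem lin_one (i j : Fin 3) : lin (1 : Aff3) i j = if i = j then 1 else 0 := by
  unfold lin e
  show (Pi.single j (1:ℝ) : E) i = _
  rw [Pi.single_apply]

theorem tr_one (i : Fin 3) : tr (1 : Aff3) i = 0 := rfl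

theorem tri_inv_diag (hc : S_coord) {γ : Aff3} (h : IsTri γ) (h' : IsTri γ⁻¹) (i : Fin 3) :
    lin γ i i * lin γ⁻¹ i i = 1 := by
  rw [← tri_mul_diag hc h h', mul_inv_cancel, lin_one, if_pos rfl]

theorem tri_inv_tr (hc : S_coord) {γ : Aff3} (h : IsTri γ) :
    lin γ 2 2 * tr γ⁻¹ 2 + tr γ 2 = 0 := by
  rw [← tri_mul_tr hc _ h, mul_inv_cancel, tr_one]

variable {D : KData}

/-- The diagonal of a commutator. -/
theorem comm_diag (hc : S_coord) (hT : D.Tri) {γ g : Aff3} (hγ : γ ∈ D.Γ) (hg : g ∈ D.Γ)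
    (i : Fin 3) : lin (γ * g * γ⁻¹ * g⁻¹) i i = 1 := by
  have h1 := hT γ hγ
  have h2 := hT g hg
  have h3 := hT _ (D.Γ.inv_mem hγ)
  have h4 := hT _ (D.Γ.inv_mem hg)
  have h5 := hT _ (D.Γ.mul_mem hγ hg)
  have h6 := hT _ (D.Γ.mul_mem (D.Γ.mul_mem hγ hg) (D.Γ.inv_mem hγ))
  rw [tri_mul_diag hc h6 h4, tri_mul_diag hc h5 h3, tri_mul_diag hc h1 h2]
  have e1 := tri_inv_diag hc h1 h3 i
  have e2 := tri_inv_diag hc h2 h4 i
  linear_combination (lin g i i * lin g⁻¹ i i) * e1 + e2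

/-- The translation part of a commutator. -/
theorem comm_tr (hc : S_coord) (hT : D.Tri) {γ g : Aff3} (hγ : γ ∈ D.Γ) (hg : g ∈ D.Γ) :
    tr (γ * g * γ⁻¹ * g⁻¹) 2 = (lin γ 2 2 - 1) * tr g 2 - (lin g 2 2 - 1) * tr γ 2 := by
  have h1 := hT γ hγ
  have h2 := hT g hg
  have h3 := hT _ (D.Γ.inv_mem hγ)
  have h4 := hT _ (D.Γ.inv_mem hg)
  have h5 := hT _ (D.Γ.mul_mem hγ hg)
  have h6 := hT _ (D.Γ.mul_mem (D.Γ.mul_mem hγ hg) (D.Γ.inv_mem hγ))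
  rw [tri_mul_tr hc _ h6, tri_mul_tr hc _ h5, tri_mul_tr hc _ h1, tri_mul_diag hc h5 h3,
    tri_mul_diag hc h1 h2]
  have e1 := tri_inv_diag hc h1 h3 2
  have e2 := tri_inv_diag hc h2 h4 2
  have e3 := tri_inv_tr hc h1
  have e4 := tri_inv_tr hc h2
  have e5 : lin g 2 2 * (lin γ 2 2 * lin γ⁻¹ 2 2) * tr g⁻¹ 2 = lin g 2 2 * tr g⁻¹ 2 := by
    rw [e1]; ring
  linear_combination e5 + e4 + lin g 2 2 * e3

/-- the `z`-translations of unipotent elements -/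
def NN (hc : S_coord) (hT : D.Tri) : AddSubgroup ℝ where
  carrier := {t | ∃ τ ∈ D.Γ, (∀ i, lin τ i i = 1) ∧ tr τ 2 = t}
  add_mem' := by
    rintro a b ⟨τ, h1, h2, h3⟩ ⟨σ, k1, k2, k3⟩
    refine ⟨σ * τ, D.Γ.mul_mem k1 h1, fun i => ?_, ?_⟩
    · rw [tri_mul_diag hc (hT _ k1) (hT _ h1), h2, k2, one_mul]
    · rw [tri_mul_tr hc _ (hT _ k1), k2, h3, k3, one_mul]
  zero_mem' := ⟨1, D.Γ.one_mem, fun i => by rw [lin_one, if_pos rfl], tr_one 2⟩
  neg_mem' := by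
    rintro a ⟨τ, h1, h2, h3⟩
    have k := D.Γ.inv_mem h1
    have e : ∀ i, lin τ⁻¹ i i = 1 := by
      intro i
      have := tri_inv_diag hc (hT _ h1) (hT _ k) i
      rwa [h2, one_mul] at this
    refine ⟨τ⁻¹, k, e, ?_⟩
    have := tri_inv_tr hc (hT _ h1)
    rw [h2, one_mul, h3] at this
    linarith

theorem conj_mem (hc : S_coord) (hT : D.Tri) {g : Aff3} (hg : g ∈ D.Γ) {t : ℝ}
    (ht : t ∈ NN hc hT) : lin g 2 2 * t ∈ NN hc hT := by
  obtain ⟨τ, h1, h2, h3⟩ := ht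
  have hg' := D.Γ.inv_mem hg
  have h4 := hT _ hg
  have h5 := hT _ hg'
  have h6 := hT _ (D.Γ.mul_mem hg h1)
  refine ⟨g * τ * g⁻¹, D.Γ.mul_mem (D.Γ.mul_mem hg h1) hg', fun i => ?_, ?_⟩
  · rw [tri_mul_diag hc h6 h5, tri_mul_diag hc h4 (hT _ h1), h2, mul_one]
    exact tri_inv_diag hc h4 h5 i
  · rw [tri_mul_tr hc _ h6, tri_mul_tr hc _ h4, tri_mul_diag hc h4 (hT _ h1), h2, h3]
    have e4 := tri_inv_tr hc h4
    linear_combination e4

theorem densN (hF1 : S_F1) (hc : S_coord) : S_densN := by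
  intro D hT hg a b hab
  obtain ⟨g, hg, hχ⟩ := hg
  -- a nonzero element
  obtain ⟨c, hcN, hc0⟩ : ∃ c ∈ NN hc hT, c ≠ 0 := by
    by_contra hcon
    push Not at hcon
    have h1 : ∀ γ ∈ D.Γ, (lin γ 2 2 - 1) * tr g 2 - (lin g 2 2 - 1) * tr γ 2 = 0 := by
      intro γ hγ
      apply hcon
      refine ⟨γ * g * γ⁻¹ * g⁻¹, ?_, comm_diag hc hT hγ hg, comm_tr hc hT hγ hg⟩
      exact D.Γ.mul_mem (D.Γ.mul_mem (D.Γ.mul_mem hγ hg) (D.Γ.inv_mem hγ)) (D.Γ.inv_mem hg)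
    set z₀ : ℝ := tr g 2 / (1 - lin g 2 2) with hz
    have hne : 1 - lin g 2 2 ≠ 0 := by
      intro h
      apply hχ; linarith
    have h2 := hF1 D {x | x 2 = z₀} (by
      intro x hx y hy s t _ _ hst
      simp only [mem_setOf_eq] at hx hy ⊢
      show s * x 2 + t * y 2 = z₀
      rw [hx, hy, ← add_mul, hst, one_mul]) ⟨fun _ => z₀, rfl⟩ (by
      intro γ hγ x hx
      simp only [mem_setOf_eq] at hx ⊢
      have h3 := hT γ hγ
      rw [hc.1, h3.2.1, h3.2.2.1, hx]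
      have h4 := h1 γ hγ
      have h5 : (1 - lin g 2 2) * z₀ = tr g 2 := by rw [hz]; field_simp
      have h6 : (1 - lin g 2 2) * (0 * x 0 + 0 * x 1 + lin γ 2 2 * z₀ + tr γ 2)
          = (1 - lin g 2 2) * z₀ := by
        linear_combination h4 + (lin γ 2 2 - 1) * h5
      exact mul_left_cancel₀ hne h6)
    have h3 : (fun _ => z₀ + 1 : E) ∈ ({x | x 2 = z₀} : Set E) := by rw [h2]; trivial
    simp only [mem_setOf_eq] at h3
    linarith
  have hlin : 0 < lin g 2 2 := (hT g hg).2.2.2.2.2.1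
  -- a contracting element
  obtain ⟨k, hk, hk0, hk1⟩ : ∃ k ∈ D.Γ, 0 < lin k 2 2 ∧ lin k 2 2 < 1 := by
    rcases lt_or_gt_of_ne hχ with h | h
    · exact ⟨g, hg, hlin, h⟩
    · have hg' := D.Γ.inv_mem hg
      have e1 := tri_inv_diag hc (hT _ hg) (hT _ hg') 2
      have h3 : 0 < lin g⁻¹ 2 2 := (hT _ hg').2.2.2.2.2.1
      refine ⟨g⁻¹, hg', h3, ?_⟩
      nlinarith
  have hpow : ∀ n : ℕ, ∀ t ∈ NN hc hT, (lin k 2 2) ^ n * t ∈ NN hc hT := by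
    intro n
    induction n with
    | zero => intro t ht; rwa [pow_zero, one_mul]
    | succ n ih =>
      intro t ht
      rw [pow_succ, mul_assoc]
      exact ih _ (conj_mem hc hT hk ht)
  have habs : |c| ∈ NN hc hT := by
    rcases abs_choice c with h | h
    · rw [h]; exact hcN
    · rw [h]; exact (NN hc hT).neg_mem hcN
  have hdense : Dense (NN hc hT : Set ℝ) := by
    apply AddSubgroup.dense_of_not_isolated_zero
    intro ε hε
    have hcpos : 0 < |c| := abs_pos.2 hc0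
    obtain ⟨n, hn⟩ := exists_pow_lt_of_lt_one (show 0 < ε / |c| by positivity) hk1
    refine ⟨_, hpow n _ habs, ?_, ?_⟩
    · positivity
    · rwa [lt_div_iff₀ hcpos] at hn
  obtain ⟨t, ht, ht'⟩ := hdense.exists_mem_open isOpen_Ioo (nonempty_Ioo.2 hab)
  obtain ⟨τ, h1, h2, h3⟩ := ht
  exact ⟨τ, h1, h2, by rw [h3]; exact ht'.1, by rw [h3]; exact ht'.2⟩

theorem linear_e (γ : Aff3) (j : Fin 3) :
    γ.linear (e j) = lin γ 0 j • e 0 + lin γ 1 j • e 1 + lin γ 2 j • e 2 := by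
  funext i
  show γ.linear (e j) i = lin γ 0 j * e 0 i + lin γ 1 j * e 1 i + lin γ 2 j * e 2 i
  unfold lin e
  fin_cases i <;> simp

theorem T0 (hL : S_leafB) (hP : S_planeInv) : S_T0 := by
  intro D hT h
  have hd : ∀ γ ∈ D.Γ, lin γ 1 1 = 1 := by
    intro γ hγ
    obtain ⟨-, -, -, -, -, -, h7⟩ := hT γ hγ
    obtain ⟨h8, h9⟩ := h γ hγ
    rw [h8, h9] at h7
    linarith
  have h1 : ∀ x ∈ D.Ω, ∀ t : ℝ, x + t • e 0 ∈ D.Ω := by
    refine hL D ⊥ (e 0) (fun _ => 1) ?_ ?_ ⟨1, fun γ _ => by norm_num⟩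
    · intro x hx w hw
      rw [Submodule.mem_bot] at hw
      rw [hw, add_zero]; exact hx
    · intro γ hγ
      obtain ⟨h2, h3, -⟩ := hT γ hγ
      rw [Submodule.mem_bot, linear_e, (h γ hγ).1, h2, h3]
      simp
  have h2 : ∀ x ∈ D.Ω, ∀ t : ℝ, x + t • e 1 ∈ D.Ω := by
    refine hL D (Submodule.span ℝ {e 0}) (e 1) (fun _ => 1) ?_ ?_ ⟨1, fun γ _ => by norm_num⟩
    · intro x hx w hw
      obtain ⟨t, rfl⟩ := Submodule.mem_span_singleton.1 hw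
      exact h1 x hx t
    · intro γ hγ
      obtain ⟨h2, h3, h4, -⟩ := hT γ hγ
      rw [linear_e, hd γ hγ, h4, Submodule.mem_span_singleton]
      exact ⟨lin γ 0 1, by simp⟩
  refine hP D (e 2) (by
    intro h3
    have := congrFun h3 2
    simp [e] at this) ?_
  intro x hx w hw
  have hw2 : w 2 = 0 := by simpa [e] using hw
  have e3 : x + w = x + w 0 • e 0 + w 1 • e 1 := by
    funext i
    fin_cases i <;> simp [e, hw2]
  rw [e3]
  exact h2 _ (h1 _ hx _) _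

theorem T3a (hN : S_densN) (hTS : S_TS) (hc : S_coord) : S_T3a := by
  intro D δ g hT hδ hg hδ2 hδ0 hg2
  have hdens := hN D hT ⟨g, hg, hg2⟩
  -- an expanding element
  obtain ⟨k, hk, hk2, hk0⟩ : ∃ k ∈ D.Γ, lin k 2 2 = 1 ∧ 1 < lin k 0 0 := by
    rcases lt_or_gt_of_ne hδ0 with h | h
    · have hδ' := D.Γ.inv_mem hδ
      have e1 := tri_inv_diag hc (hT _ hδ) (hT _ hδ') 0
      have e2 := tri_inv_diag hc (hT _ hδ) (hT _ hδ') 2
      have h3 : 0 < lin δ 0 0 := (hT _ hδ).2.2.2.1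
      refine ⟨δ⁻¹, hδ', by rwa [hδ2, one_mul] at e2, ?_⟩
      by_contra hcon
      push Not at hcon
      have : 0 < lin δ⁻¹ 0 0 := (hT _ hδ').2.2.2.1
      nlinarith
    · exact ⟨δ, hδ, hδ2, h⟩
  obtain ⟨τ₁, h1, h2, h3, -⟩ := hdens (-tr k 2) (-tr k 2 + 1) (by linarith)
  obtain ⟨τ₂, k1, k2, -, k3⟩ := hdens (-tr k 2 - 1) (-tr k 2) (by linarith)
  refine hTS D (k * τ₁) (k * τ₂) hT (D.Γ.mul_mem hk h1) (D.Γ.mul_mem hk k1) ?_ ?_ ?_ ?_ ?_ ?_ ?_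
  · rw [tri_mul_diag hc (hT _ hk) (hT _ h1), hk2, h2, one_mul]
  · rw [tri_mul_diag hc (hT _ hk) (hT _ k1), hk2, k2, one_mul]
  · rw [tri_mul_diag hc (hT _ hk) (hT _ h1), h2, mul_one]; exact hk0
  · rw [tri_mul_diag hc (hT _ hk) (hT _ k1), k2, mul_one]; exact hk0
  · rw [tri_mul_tr hc _ (hT _ hk), hk2, one_mul]; linarith
  · rw [tri_mul_tr hc _ (hT _ hk), hk2, one_mul]; linarith
  · intro a b hab
    obtain ⟨τ, t1, t2, t3, t4⟩ := hdens a b hab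
    exact ⟨τ, t1, t2 2, t3, t4⟩

end Pool.Agent.Helper71.K3.densN
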